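import Mathlib

/-!
# A double sum of Dixon type
-/

set_option autoImplicit false

namespace Pool.Agent.X234.EE

open Finset

def tt (m i : ℕ) : ℚ := (-1) ^ i * (m.choose i : ℚ) ^ 3

def CC (m l : ℕ) : ℚ := ∑ i ∈ range l, tt m i

def dd (m l : ℕ) : ℚ := (-1) ^ l / ((l : ℚ) * (m.choose l : ℚ)) ^ 3

def FF (m : ℕ) : ℚ := ∑ l ∈ range m, dd m (l + 1) * CC m (l + 1)

/-- the first certificate -/
def Pp (m i : ℚ) : ℚ :=
  (-232 - 784 * m - 1042 * m ^ 2 - 682 * m ^ 3 - 220 * m ^ 4 - 28 * m ^ 5) +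
  (414 + 1113 * m + 1107 * m ^ 2 + 483 * m ^ 3 + 78 * m ^ 4) * i +
  (-294 - 594 * m - 396 * m ^ 2 - 87 * m ^ 3) * i ^ 2 + (96 + 132 * m + 45 * m ^ 2) * i ^ 3 +
  (-12 - 9 * m) * i ^ 4

/-- the second certificate -/
def Qp (m i : ℚ) : ℚ :=
  (-848 - 2152 * m - 2180 * m ^ 2 - 1102 * m ^ 3 - 278 * m ^ 4 - 28 * m ^ 5) +
  (1236 + 2496 * m + 1881 * m ^ 2 + 627 * m ^ 3 + 78 * m ^ 4) * i +
  (-678 - 1035 * m - 522 * m ^ 2 - 87 * m ^ 3) * i ^ 2 + (165 + 174 * m + 45 * m ^ 2) * i ^ 3 +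
  (-15 - 9 * m) * i ^ 4

def Wp (m M : ℚ) : ℚ :=
  (492 + 2124 * m + 3759 * m ^ 2 + 3492 * m ^ 3 + 1797 * m ^ 4 + 486 * m ^ 5 + 54 * m ^ 6) * M +
  (1134 + 3915 * m + 5346 * m ^ 2 + 3618 * m ^ 3 + 1215 * m ^ 4 + 162 * m ^ 5) * M ^ 2 +
  (-2106 - 5724 * m - 5796 * m ^ 2 - 2592 * m ^ 3 - 432 * m ^ 4) * M ^ 3 +
  (1080 + 2178 * m + 1458 * m ^ 2 + 324 * m ^ 3) * M ^ 4 + (-180 - 243 * m - 81 * m ^ 2) * M ^ 5

lemma ch1 (N l : ℕ) : (N.choose l : ℚ) * ((N : ℚ) + 1) =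
    ((N + 1).choose l : ℚ) * ((N : ℚ) + 1 - l) := by
  rcases Nat.lt_or_ge (N + 1) l with h | h
  · rw [Nat.choose_eq_zero_of_lt (by omega), Nat.choose_eq_zero_of_lt (by omega)]
    simp
  · have := Nat.choose_mul_succ_eq N l
    have h2 : (((N.choose l) * (N + 1) : ℕ) : ℚ) = (((N + 1).choose l * (N + 1 - l) : ℕ) : ℚ) := by
      rw [this]
    rw [Nat.cast_mul, Nat.cast_mul, Nat.cast_sub h] at h2
    push_cast at h2
    exact h2

lemma ch2 (N l : ℕ) : (N.choose (l + 1) : ℚ) * ((l : ℚ) + 1) = (N.choose l : ℚ) * ((N : ℚ) - l) := by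
  rcases Nat.lt_or_ge N l with h | h
  · rw [Nat.choose_eq_zero_of_lt (by omega), Nat.choose_eq_zero_of_lt (by omega)]
    simp
  · have := Nat.choose_succ_right_eq N l
    have h2 : (((N.choose (l + 1)) * (l + 1) : ℕ) : ℚ) = ((N.choose l * (N - l) : ℕ) : ℚ) := by
      rw [this]
    rw [Nat.cast_mul, Nat.cast_mul, Nat.cast_sub h] at h2
    push_cast at h2
    exact h2

lemma ch12 (m l : ℕ) : ((m : ℚ) + 1) * (m + 2) * (m.choose l : ℚ) =
    ((m : ℚ) + 1 - l) * (m + 2 - l) * ((m + 2).choose l : ℚ) := by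
  have h1 := ch1 m l
  have h2 := ch1 (m + 1) l
  push_cast at h2
  linear_combination ((m : ℚ) + 2) * h1 + ((m : ℚ) + 1 - l) * h2

lemma G_eq (m l : ℕ) : (((m : ℚ) + 1) * (m + 2)) ^ 3 * (((m : ℚ) + 2) ^ 2 * CC (m + 2) l +
    3 * (3 * m + 2) * (3 * m + 4) * CC m l) = (l : ℚ) ^ 3 * Pp m l * tt (m + 2) l := by
  induction l with
  | zero => simp [CC]
  | succ l ih =>
    have h1 := ch12 m l
    have h2 := ch2 (m + 2) l
    unfold CC at ih ⊢
    rw [sum_range_succ, sum_range_succ]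
    unfold tt at ih ⊢
    rw [pow_succ (-1 : ℚ) l]
    push_cast at h2 ⊢
    have h3 : ((((m + 2).choose (l + 1) : ℕ) : ℚ) * ((l : ℚ) + 1)) ^ 3 =
        ((((m + 2).choose l : ℕ) : ℚ) * ((m : ℚ) + 2 - l)) ^ 3 := by rw [h2]
    have h4 : (((m : ℚ) + 1) * (m + 2) * (m.choose l : ℚ)) ^ 3 =
      (((m : ℚ) + 1 - l) * (m + 2 - l) * ((m + 2).choose l : ℚ)) ^ 3 := by rw [h1]
    generalize (((m + 2).choose (l + 1) : ℕ) : ℚ) = c3 at *
    generalize (((m + 2).choose l : ℕ) : ℚ) = c2 at *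
    generalize ((m.choose l : ℕ) : ℚ) = c at *
    generalize (-1 : ℚ) ^ l = e at *
    unfold Pp at ih ⊢
    linear_combination ih + (3 * (3 * (m : ℚ) + 2) * (3 * m + 4) * e) * h4 +
      (e * ((-232 - 784 * (m : ℚ) - 1042 * m ^ 2 - 682 * m ^ 3 - 220 * m ^ 4 - 28 * m ^ 5) +
  (414 + 1113 * m + 1107 * m ^ 2 + 483 * m ^ 3 + 78 * m ^ 4) * (l + 1) +
  (-294 - 594 * m - 396 * m ^ 2 - 87 * m ^ 3) * (l + 1) ^ 2 + (96 + 132 * m + 45 * m ^ 2) * (l + 1) ^ 3 +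
  (-12 - 9 * m) * (l + 1) ^ 4)) * h3

lemma Y_eq (m : ℕ) (M : ℕ) (hM : M ≤ m) : (((m : ℚ) + 1) * (m + 2)) ^ 3 *
    ∑ l ∈ range M, ((((m : ℚ) + 2) ^ 2 * CC (m + 2) (l + 1)) *
      (3 * (3 * m + 5) * (3 * m + 7) * dd (m + 2) (l + 1)) -
      (3 * (3 * m + 2) * (3 * m + 4) * CC m (l + 1)) * (((m : ℚ) + 1) ^ 2 * dd m (l + 1))) =
    Wp m M + 3 * (3 * m + 2) * (3 * m + 4) * CC m M * Qp m (M + 1) *
      ((-1) ^ M / (m.choose M : ℚ) ^ 3) := by
  induction M with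
  | zero => simp [CC, Wp]
  | succ M ih =>
    rw [sum_range_succ, mul_add, ih (by omega)]
    have hG := G_eq m (M + 1)
    have hc1 := ch2 m M
    have hc2 := ch12 m (M + 1)
    have hCs : CC m (M + 1) = CC m M + tt m M := sum_range_succ _ _
    have hp1 : (0 : ℚ) < (m.choose M : ℚ) := by exact_mod_cast Nat.choose_pos (by omega)
    have hp2 : (0 : ℚ) < (m.choose (M + 1) : ℚ) := by exact_mod_cast Nat.choose_pos (by omega)
    have hp3 : (0 : ℚ) < ((m + 2).choose (M + 1) : ℚ) := by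
      exact_mod_cast Nat.choose_pos (by omega)
    have hm : (0 : ℚ) < (m : ℚ) - M := by
      have : (M : ℚ) + 1 ≤ m := by exact_mod_cast hM
      linarith
    unfold dd
    rw [hCs] at hG ⊢
    unfold tt at hG ⊢
    rw [pow_succ (-1 : ℚ) M] at hG ⊢
    have he : ((-1 : ℚ) ^ M) ^ 2 = 1 := by rw [← pow_mul, mul_comm, pow_mul]; norm_num
    push_cast at hc2 hG ⊢
    have hc : (m.choose M : ℚ) = (m.choose (M + 1) : ℚ) * ((M : ℚ) + 1) / ((m : ℚ) - M) := by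
      field_simp
      linear_combination -hc1
    have hc' : ((m + 2).choose (M + 1) : ℚ) = ((m : ℚ) + 1) * (m + 2) * (m.choose (M + 1) : ℚ) /
        (((m : ℚ) - M) * (m + 1 - M)) := by
      have : (0 : ℚ) < (m : ℚ) + 1 - M := by linarith
      field_simp
      linear_combination -hc2
    have hm1 : (0 : ℚ) < (m : ℚ) + 1 - M := by linarith
    have hM0 : (0 : ℚ) < (M : ℚ) + 1 := by positivity
    have hmm : (0 : ℚ) < (m : ℚ) := by
      have : (0 : ℚ) ≤ (M : ℚ) := Nat.cast_nonneg M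
      linarith
    rw [hc'] at hG ⊢
    rw [hc] at hG ⊢
    generalize CC m M = X at *
    generalize CC (m + 2) (M + 1) = Z at *
    generalize (-1 : ℚ) ^ M = e at *
    generalize (m.choose (M + 1) : ℚ) = c at *
    generalize (M : ℚ) = x at *
    generalize (m : ℚ) = y at *
    have hy : x = y - (y - x) := by ring
    generalize y - x = w at *
    subst hy
    have hw1 : (0 : ℚ) < w + 1 := by linarith
    have hZ : Z = ((y - w + 1) ^ 3 * Pp y (y - w + 1) * (e * -1 * ((y + 1) * (y + 2) * c / (w * (y + 1 - (y - w)))) ^ 3) / ((y + 1) * (y + 2)) ^ 3 - 3 * (3 * y + 2) * (3 * y + 4) * (X + e * (c * (y - w + 1) / w) ^ 3)) / (y + 2) ^ 2 := by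
      have h1 : (y + 1) * (y + 2) ≠ 0 := by positivity
      have h2 : (y + 2) ≠ 0 := by positivity
      rw [← hG]
      field_simp
      ring
    rw [hZ]
    have hee : e = 1 ∨ e = -1 := by
      have h0 : (e - 1) * (e + 1) = 0 := by linear_combination he
      rcases mul_eq_zero.mp h0 with h | h
      · left; linarith
      · right; linarith
    unfold Pp Qp Wp
    rcases hee with rfl | rfl
    · field_simp
      ring
    · field_simp
      ring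

lemma CC_zero {m : ℕ} (hm : Odd m) : CC m (m + 1) = 0 := by
  have h1 : ∑ i ∈ range (m + 1), tt m (m + 1 - 1 - i) = ∑ i ∈ range (m + 1), tt m i :=
    sum_range_reflect _ _
  have h2 : ∑ i ∈ range (m + 1), tt m (m + 1 - 1 - i) = -∑ i ∈ range (m + 1), tt m i := by
    rw [← sum_neg_distrib]
    refine sum_congr rfl fun i hi => ?_
    have hi' := mem_range.mp hi
    unfold tt
    rw [show m + 1 - 1 - i = m - i by omega, Nat.choose_symm (by omega)]
    have h3 : (-1 : ℚ) ^ (m - i) * (-1) ^ i = -1 := by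
      rw [← pow_add, Nat.sub_add_cancel (by omega), hm.neg_one_pow]
    have h4 : ((-1 : ℚ) ^ i) * (-1) ^ i = 1 := by rw [← mul_pow]; norm_num
    linear_combination ((-1 : ℚ) ^ i * (m.choose i : ℚ) ^ 3) * h3 -
      ((-1 : ℚ) ^ (m - i) * (m.choose i : ℚ) ^ 3) * h4
  unfold CC
  linarith

lemma CC_last {m : ℕ} (hm : Odd m) : CC m m = 1 := by
  have h1 := CC_zero hm
  have h2 : CC m (m + 1) = CC m m + tt m m := sum_range_succ _ _
  have h3 : tt m m = -1 := by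
    unfold tt
    rw [Nat.choose_self, hm.neg_one_pow]
    norm_num
  linarith

lemma CC_last2 {m : ℕ} (hm : Odd m) : CC (m + 1 + 1) (m + 1) = 1 - ((m : ℚ) + 2) ^ 3 := by
  have hm2 : Odd (m + 1 + 1) := by
    obtain ⟨k, hk⟩ := hm
    exact ⟨k + 1, by omega⟩
  have h1 := CC_last hm2
  have h2 : CC (m + 1 + 1) (m + 1 + 1) = CC (m + 1 + 1) (m + 1) + tt (m + 1 + 1) (m + 1) :=
    sum_range_succ _ _
  have h3 : tt (m + 1 + 1) (m + 1) = ((m : ℚ) + 2) ^ 3 := by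
    unfold tt
    rw [Nat.choose_succ_self_right, hm.add_one.neg_one_pow]
    push_cast
    ring
  linarith

theorem FF_rec {m : ℕ} (hm : Odd m) :
    (3 * (m : ℚ) + 5) * (3 * m + 7) * (m + 2) ^ 2 * FF (m + 2) =
      (3 * (m : ℚ) + 2) * (3 * m + 4) * (m + 1) ^ 2 * FF m := by
  have hY := Y_eq m m le_rfl
  rw [CC_last hm, Nat.choose_self, hm.neg_one_pow] at hY
  have hm2 : Odd (m + 1 + 1) := by
    obtain ⟨k, hk⟩ := hm
    exact ⟨k + 1, by omega⟩
  have hF : FF (m + 2) = ∑ l ∈ range m, dd (m + 2) (l + 1) * CC (m + 2) (l + 1) +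
      dd (m + 2) (m + 1) * CC (m + 2) (m + 1) + dd (m + 2) (m + 2) * CC (m + 2) (m + 2) := by
    unfold FF
    rw [sum_range_succ, sum_range_succ]
  have e1 : CC (m + 2) (m + 1) = 1 - ((m : ℚ) + 2) ^ 3 := CC_last2 hm
  have e2 : CC (m + 2) (m + 2) = 1 := CC_last hm2
  have e3 : dd (m + 2) (m + 1) = 1 / (((m : ℚ) + 1) * (m + 2)) ^ 3 := by
    unfold dd
    rw [show m + 2 = m + 1 + 1 by ring, Nat.choose_succ_self_right, hm.add_one.neg_one_pow]
    push_cast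
    ring
  have e4 : dd (m + 2) (m + 2) = -1 / ((m : ℚ) + 2) ^ 3 := by
    unfold dd
    rw [Nat.choose_self, show m + 2 = m + 1 + 1 by ring, hm2.neg_one_pow]
    push_cast
    ring
  rw [e1, e2, e3, e4] at hF
  have hS : ∑ l ∈ range m, ((((m : ℚ) + 2) ^ 2 * CC (m + 2) (l + 1)) *
      (3 * (3 * m + 5) * (3 * m + 7) * dd (m + 2) (l + 1)) -
      (3 * (3 * m + 2) * (3 * m + 4) * CC m (l + 1)) * (((m : ℚ) + 1) ^ 2 * dd m (l + 1))) =
      3 * (3 * (m : ℚ) + 5) * (3 * m + 7) * (m + 2) ^ 2 *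
        (∑ l ∈ range m, dd (m + 2) (l + 1) * CC (m + 2) (l + 1)) -
      3 * (3 * (m : ℚ) + 2) * (3 * m + 4) * (m + 1) ^ 2 * FF m := by
    unfold FF
    rw [sum_sub_distrib, mul_sum, mul_sum]
    congr 1
    · exact sum_congr rfl fun l _ => by ring
    · exact sum_congr rfl fun l _ => by ring
  rw [hS] at hY
  generalize ∑ l ∈ range m, dd (m + 2) (l + 1) * CC (m + 2) (l + 1) = A at *
  have h1 : ((m : ℚ) + 1) * (m + 2) ≠ 0 := by positivity
  have h2 : ((m : ℚ) + 2) ≠ 0 := by positivity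
  have h3 : ((m : ℚ) + 1) ≠ 0 := by positivity
  have h4 : (((m : ℚ) + 1) * (m + 2)) ^ 3 ≠ 0 := pow_ne_zero _ h1
  have hM : (((m : ℚ) + 1) * (m + 2)) ^ 3 * FF (m + 2) = (((m : ℚ) + 1) * (m + 2)) ^ 3 * A +
      (1 - ((m : ℚ) + 2) ^ 3) - ((m : ℚ) + 1) ^ 3 := by
    rw [hF]
    field_simp
    ring
  apply mul_left_cancel₀ h4
  generalize FF (m + 2) = B2 at *
  generalize FF m = B at *
  generalize (m : ℚ) = y at *
  unfold Qp Wp at hY
  linear_combination (1 / 3) * hY + ((3 * y + 5) * (3 * y + 7) * (y + 2) ^ 2) * hM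

/-- the closed form -/
theorem FF_closed (k : ℕ) :
    FF (2 * k + 1) * ∏ i ∈ range k, ((2 * (i : ℚ) + 3) ^ 2 * ((6 * i + 8) * (6 * i + 10))) =
      -∏ i ∈ range k, ((6 * (i : ℚ) + 5) * (6 * i + 7) * (2 * i + 2) ^ 2) := by
  induction k with
  | zero => simp [FF, dd, CC, tt]
  | succ k ih =>
    rw [prod_range_succ, prod_range_succ]
    have h := FF_rec (m := 2 * k + 1) ⟨k, rfl⟩
    rw [show 2 * (k + 1) + 1 = 2 * k + 1 + 2 by ring]
    push_cast at h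
    generalize ∏ i ∈ range k, ((2 * (i : ℚ) + 3) ^ 2 * ((6 * i + 8) * (6 * i + 10))) = D at *
    generalize ∏ i ∈ range k, ((6 * (i : ℚ) + 5) * (6 * i + 7) * (2 * i + 2) ^ 2) = N at *
    linear_combination D * h + ((6 * (k : ℚ) + 5) * (6 * k + 7) * (2 * k + 2) ^ 2) * ih

end Pool.Agent.X234.EE
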