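import Pool.Agent.X234.WG.Main
import Pool.Agent.X234.EE.Fsum

/-!
# Blocks of the sequence `C(2k,k)^3 / 64^k`
-/

set_option autoImplicit false

namespace Pool.Agent.X234.EE

open Finset Pool.Agent.X234.WG

variable {p : ℕ} [hp : Fact p.Prime]

noncomputable def iv (p : ℕ) [Fact p.Prime] (x : ℤ_[p]) : ℤ_[p] := Ring.inverse x

lemma mul_iv {x : ℤ_[p]} (h : IsUnit x) : x * iv p x = 1 := Ring.mul_inverse_cancel x h

lemma iv_isUnit {x : ℤ_[p]} (h : IsUnit x) : IsUnit (iv p x) :=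
  IsUnit.of_mul_eq_one x (by rw [mul_comm]; exact mul_iv h)

lemma unit_one {j : ℕ} (hj : j + 1 < p) (t : ℤ_[p]) : IsUnit ((j : ℤ_[p]) + 1 + p * t) :=
  isUnit_of_not_dvd (not_dvd_add hj t)

lemma unit_half {h : ℤ_[p]} (h2 : 2 * h = 1) {m j : ℕ} (hm : p = 2 * m + 1) (hj : j < m)
    (t : ℤ_[p]) : IsUnit (h + j + p * t) := by
  apply isUnit_of_not_dvd
  intro hd
  obtain ⟨c, hc⟩ := hd
  have h3 : (p : ℤ_[p]) ∣ ((2 * j + 1 : ℕ) : ℤ_[p]) := by
    refine ⟨2 * c - 2 * t, ?_⟩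
    push_cast
    linear_combination 2 * hc - h2
  rw [dvd_nat_iff] at h3
  have := Nat.le_of_dvd (by omega) h3
  omega

/-- the ratio `u_{pt+k} / u_{pt}` -/
noncomputable def rho (h t : ℤ_[p]) (k : ℕ) : ℤ_[p] :=
  ∏ j ∈ range k, ((h + j + p * t) * iv p ((j : ℤ_[p]) + 1 + p * t))

lemma rho_succ (h t : ℤ_[p]) (k : ℕ) :
    rho h t (k + 1) = rho h t k * ((h + k + p * t) * iv p ((k : ℤ_[p]) + 1 + p * t)) :=
  prod_range_succ _ _

lemma rho_refl {h : ℤ_[p]} (h2 : 2 * h = 1) {m : ℕ} (hm : p = 2 * m + 1) (t : ℤ_[p]) (i : ℕ)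
    (hi : i ≤ m) : rho h t (m - i) = rho h t m * rho h (-t - h) i := by
  induction i with
  | zero => simp [rho]
  | succ i ih =>
    have h1 := ih (by omega)
    obtain ⟨a, ha⟩ : ∃ a, m = a + (i + 1) := ⟨m - (i + 1), by omega⟩
    have e1 : m - i = a + 1 := by omega
    have e2 : m - (i + 1) = a := by omega
    rw [e1, rho_succ] at h1
    rw [e2, rho_succ]
    have hpm : (p : ℤ_[p]) = 2 * m + 1 := by exact_mod_cast congrArg (Nat.cast (R := ℤ_[p])) hm
    have hma : (m : ℤ_[p]) = a + i + 1 := by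
      rw [ha]; push_cast; ring
    -- units
    have u1 := mul_iv (unit_one (p := p) (j := a) (by omega) t)
    have u2 := mul_iv (unit_half h2 hm (show a < m by omega) t)
    have k1 : h + (i : ℤ_[p]) + p * (-t - h) = -((a : ℤ_[p]) + 1 + p * t) := by
      linear_combination h * (-1) * hpm - hma - (m : ℤ_[p]) * h2
    have k2 : (i : ℤ_[p]) + 1 + p * (-t - h) = -(h + a + p * t) := by
      linear_combination (-h) * hpm - hma - ((m : ℤ_[p]) + 1) * h2 + h2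
    have u3 := mul_iv (unit_one (p := p) (j := i) (by omega) (-t - h))
    rw [k1, k2]
    rw [k2] at u3
    -- iv p (-(..)) = - iv
    have k3 : iv p (-(h + a + p * t)) = - iv p (h + (a : ℤ_[p]) + p * t) := by
      generalize iv p (-(h + a + p * t)) = A at *
      generalize iv p (h + (a : ℤ_[p]) + p * t) = B at *
      linear_combination -B * u3 - A * u2
    rw [k3]
    generalize iv p (h + (a : ℤ_[p]) + p * t) = B at *
    generalize iv p ((a : ℤ_[p]) + 1 + p * t) = A at *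
    linear_combination (B * ((a : ℤ_[p]) + 1 + p * t)) * h1 - rho h t a * u2 -
      (rho h t a * (h + a + p * t) * B) * u1

lemma iv_congr {x y : ℤ_[p]} (hx : IsUnit x) (hy : IsUnit y) (h : (p : ℤ_[p]) ∣ x - y) :
    (p : ℤ_[p]) ∣ iv p x - iv p y := by
  obtain ⟨c, hc⟩ := h
  refine ⟨-(c * iv p x * iv p y), ?_⟩
  linear_combination (-(iv p x * iv p y)) * hc + iv p x * mul_iv hy * (-1) + iv p y * mul_iv hx +
    0 * hc

lemma rho_congr (h t : ℤ_[p]) {i : ℕ} (hi : i < p) : (p : ℤ_[p]) ∣ rho h t i - rho h 0 i := by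
  unfold rho
  apply prod_congr_mod
  intro j hj
  obtain ⟨c, hc⟩ := iv_congr (unit_one (p := p) (j := j) (by omega) t)
    (unit_one (p := p) (j := j) (by omega) 0) (⟨t, by ring⟩)
  exact ⟨t * iv p ((j : ℤ_[p]) + 1 + p * t) + (h + j) * c, by
    linear_combination (h + j) * hc⟩

lemma rho_bin {h : ℤ_[p]} (h2 : 2 * h = 1) {m : ℕ} (hm : p = 2 * m + 1) {i : ℕ} (hi : i < p) :
    (p : ℤ_[p]) ∣ rho h 0 i - (-1) ^ i * (m.choose i : ℤ_[p]) := by
  have hpm : (p : ℤ_[p]) = 2 * m + 1 := by exact_mod_cast congrArg (Nat.cast (R := ℤ_[p])) hm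
  induction i with
  | zero => simp [rho]
  | succ i ih =>
    obtain ⟨c, hc⟩ := ih (by omega)
    rw [rho_succ]
    have u1 := mul_iv (unit_one (p := p) (j := i) (by omega) 0)
    have h3 : (m.choose (i + 1) : ℤ_[p]) * ((i : ℤ_[p]) + 1) =
        (m.choose i : ℤ_[p]) * ((m : ℤ_[p]) - i) := by
      rcases Nat.lt_or_ge m i with h | h
      · rw [Nat.choose_eq_zero_of_lt (by omega), Nat.choose_eq_zero_of_lt (by omega)]
        simp
      · have := Nat.choose_succ_right_eq m i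
        have h2 : (((m.choose (i + 1)) * (i + 1) : ℕ) : ℤ_[p]) =
            ((m.choose i * (m - i) : ℕ) : ℤ_[p]) := by
          rw [this]
        rw [Nat.cast_mul, Nat.cast_mul, Nat.cast_sub h] at h2
        push_cast at h2
        exact h2
    apply SD.dvd_of_dvd_nat_mul p (m := i + 1) (by omega) hi
    rw [pow_succ]
    push_cast
    rw [mul_zero, add_zero] at u1
    rw [mul_zero, add_zero, add_zero]
    refine ⟨c * (h + i) + (-1) ^ i * (m.choose i : ℤ_[p]) * h, ?_⟩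
    linear_combination (rho h 0 i * (h + i)) * u1 + (h + i) * hc + (-1) ^ i * h3 +
      (-((-1) ^ i * (m.choose i : ℤ_[p]) * h)) * hpm -
      ((-1) ^ i * (m.choose i : ℤ_[p]) * m) * h2

lemma A2.iv1 {j : ℕ} (hj : j + 1 < p) :
    A2 (p := p) (fun t => iv p ((j : ℤ_[p]) + 1 + p * t)) := by
  refine ⟨iv p ((j : ℤ_[p]) + 1 + p * 0), -(iv p ((j : ℤ_[p]) + 1 + p * 0)) ^ 2, fun t => ?_⟩
  have u1 := mul_iv (unit_one (p := p) (j := j) hj t)
  have u0 := mul_iv (unit_one (p := p) (j := j) hj 0)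
  simp only
  generalize iv p ((j : ℤ_[p]) + 1 + p * t) = A at *
  generalize iv p ((j : ℤ_[p]) + 1 + p * 0) = B at *
  refine ⟨t ^ 2 * A * B ^ 2, ?_⟩
  linear_combination (-A + p * t * A * B) * u0 + (B - p * t * B ^ 2) * u1

lemma A2_rho (h : ℤ_[p]) {i : ℕ} (hi : i < p) : A2 (p := p) (fun t => rho h t i) := by
  unfold rho
  apply A2.prod
  intro j hj
  have e1 := (A2.lin (p := p) (h + j) 1).mul (A2.iv1 (p := p) (j := j) (by omega))
  convert e1 using 2 with t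
  ring

lemma rho_pos {h : ℤ_[p]} (h2 : 2 * h = 1) {m : ℕ} (hm : p = 2 * m + 1) (t : ℤ_[p]) :
    h + (m : ℤ_[p]) + p * t = p * (h + t) := by
  have hpm : (p : ℤ_[p]) = 2 * m + 1 := by exact_mod_cast congrArg (Nat.cast (R := ℤ_[p])) hm
  linear_combination (-h) * hpm - (m : ℤ_[p]) * h2

/-- the unit part of `rho` beyond the middle -/
noncomputable def ee (h t : ℤ_[p]) (m x : ℕ) : ℤ_[p] :=
  rho h t m * iv p ((m : ℤ_[p]) + 1 + p * t) *
    ∏ y ∈ range x, ((h + ((m + 1 + y : ℕ) : ℤ_[p]) + p * t) *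
      iv p (((m + 1 + y : ℕ) : ℤ_[p]) + 1 + p * t))

lemma rho_ee {h : ℤ_[p]} (h2 : 2 * h = 1) {m : ℕ} (hm : p = 2 * m + 1) (t : ℤ_[p]) (x : ℕ) :
    rho h t (m + 1 + x) = p * (h + t) * ee h t m x := by
  have h1 : rho h t (m + 1 + x) = rho h t (m + 1) *
      ∏ y ∈ range x, ((h + ((m + 1 + y : ℕ) : ℤ_[p]) + p * t) *
      iv p (((m + 1 + y : ℕ) : ℤ_[p]) + 1 + p * t)) := by
    unfold rho
    rw [prod_range_add]
  rw [h1, rho_succ, rho_pos h2 hm]
  unfold ee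
  ring

lemma ee_congr (h t : ℤ_[p]) {m x : ℕ} (hx : m + 1 + x < p) :
    (p : ℤ_[p]) ∣ ee h t m x - ee h 0 m x := by
  obtain ⟨a, ha⟩ := rho_congr h t (i := m) (by omega)
  obtain ⟨b, hb⟩ := iv_congr (unit_one (p := p) (j := m) (by omega) t)
    (unit_one (p := p) (j := m) (by omega) 0) (⟨t, by ring⟩)
  have h3 : (p : ℤ_[p]) ∣ ∏ y ∈ range x, ((h + ((m + 1 + y : ℕ) : ℤ_[p]) + p * t) *
      iv p (((m + 1 + y : ℕ) : ℤ_[p]) + 1 + p * t)) -
      ∏ y ∈ range x, ((h + ((m + 1 + y : ℕ) : ℤ_[p]) + p * 0) *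
      iv p (((m + 1 + y : ℕ) : ℤ_[p]) + 1 + p * 0)) := by
    apply prod_congr_mod
    intro y hy
    obtain ⟨c, hc⟩ := iv_congr (unit_one (p := p) (j := m + 1 + y) (by omega) t)
      (unit_one (p := p) (j := m + 1 + y) (by omega) 0) (⟨t, by ring⟩)
    exact ⟨t * iv p (((m + 1 + y : ℕ) : ℤ_[p]) + 1 + p * t) +
      (h + ((m + 1 + y : ℕ) : ℤ_[p])) * c, by
      linear_combination (h + ((m + 1 + y : ℕ) : ℤ_[p])) * hc⟩
  obtain ⟨c, hc⟩ := h3
  unfold ee
  generalize ∏ y ∈ range x, ((h + ((m + 1 + y : ℕ) : ℤ_[p]) + p * t) *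
      iv p (((m + 1 + y : ℕ) : ℤ_[p]) + 1 + p * t)) = P1 at *
  generalize ∏ y ∈ range x, ((h + ((m + 1 + y : ℕ) : ℤ_[p]) + p * 0) *
      iv p (((m + 1 + y : ℕ) : ℤ_[p]) + 1 + p * 0)) = P0 at *
  generalize iv p ((m : ℤ_[p]) + 1 + p * t) = B1 at *
  generalize iv p ((m : ℤ_[p]) + 1 + p * 0) = B0 at *
  generalize rho h t m = A1 at *
  generalize rho h 0 m = A0 at *
  exact ⟨a * B1 * P1 + A0 * b * P1 + A0 * B0 * c, by
    linear_combination (B1 * P1) * ha + (A0 * P1) * hb + (A0 * B0) * hc⟩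

end Pool.Agent.X234.EE
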