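import Pool.Agent.X234.EE.Main
import Pool.Agent.X234.SD.Final

/-!
# Transfer to the rationals
-/

set_option autoImplicit false

namespace Pool.Agent.X234.EE

open Finset
open Pool.Agent.X234.SC (congr_of_norm)

variable {p : ℕ} [hp : Fact p.Prime]

/-- the truncated sum of the problem, as a rational number -/
def SS (p r : ℕ) : ℚ :=
  ∑ k ∈ range (p ^ r), (∑ j ∈ range (k + 1), ((2 * j).choose j : ℚ) ^ 3 *
    ((2 * (k - j)).choose (k - j) : ℚ) ^ 3) / 64 ^ k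

lemma cast_SS (r : ℕ) {h : ℤ_[p]} (h2 : 2 * h = 1) : ((SS p r : ℚ) : ℚ_[p]) =
    ((∑ j ∈ range (p ^ r), uu h j ^ 3 * Pre h (p ^ r - j) : ℤ_[p]) : ℚ_[p]) := by
  have hh : (h : ℚ_[p]) = 1 / 2 := by
    have h3 := congrArg (fun x : ℤ_[p] => (x : ℚ_[p])) (show h + h = 1 by rw [← h2]; ring)
    push_cast at h3
    linear_combination h3 / 2
  have h1 : ∑ j ∈ range (p ^ r), uu h j ^ 3 * Pre h (p ^ r - j) =
      ∑ k ∈ range (p ^ r), ∑ j ∈ range (k + 1), uu h j ^ 3 * uu h (k - j) ^ 3 := by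
    rw [sum_range_diag_flip (p ^ r) (fun j i => uu h j ^ 3 * uu h i ^ 3)]
    refine sum_congr rfl fun j _ => ?_
    unfold Pre
    rw [mul_sum]
  rw [h1]
  unfold SS
  rw [Rat.cast_sum, PadicInt.coe_sum]
  refine sum_congr rfl fun k _ => ?_
  rw [PadicInt.coe_sum, Rat.cast_div, Rat.cast_sum, sum_div]
  refine sum_congr rfl fun j hj => ?_
  have hj' := mem_range.mp hj
  unfold uu
  rw [Nat.centralBinom_eq_two_mul_choose, Nat.centralBinom_eq_two_mul_choose]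
  push_cast
  rw [hh]
  have e1 : (64 : ℚ_[p]) ^ k = ((2 : ℚ_[p]) ^ (2 * j)) ^ 3 * ((2 : ℚ_[p]) ^ (2 * (k - j))) ^ 3 := by
    rw [← mul_pow, ← pow_add, ← pow_mul, show (2 * j + 2 * (k - j)) * 3 = 6 * k by omega, pow_mul]
    norm_num
  rw [e1]
  rw [one_div, inv_pow, inv_pow]
  field_simp

theorem congr_four (h3 : 3 < p) (h4 : p % 4 = 3) (r : ℕ) (hr : 1 ≤ r) :
    SS p r = 0 ∨ (4 : ℤ) ≤ padicValRat p (SS p r) := by
  have hu := SD.isUnit_cast p (i := 1) (by omega)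
  obtain ⟨u, hu'⟩ := hu
  have h2 : (2 : ℤ_[p]) * ((u⁻¹ : ℤ_[p]ˣ) : ℤ_[p]) = 1 := by
    have h4 : (2 : ℤ_[p]) = (u : ℤ_[p]) := by rw [hu']; norm_num
    rw [h4, Units.mul_inv]
  generalize ((u⁻¹ : ℤ_[p]ˣ) : ℤ_[p]) = h at h2
  obtain ⟨t, ht⟩ := conv_dvd h3 h2 h4 (p ^ (r - 1))
  have e : p * p ^ (r - 1) = p ^ r := by
    rw [← pow_succ']
    congr 1
    omega
  rw [e] at ht
  have h1 := cast_SS (p := p) r h2
  rw [ht] at h1
  have h2' : ‖((SS p r : ℚ) : ℚ_[p])‖ = ((padicNorm p (SS p r) : ℚ) : ℝ) := Padic.eq_padicNorm _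
  have h3' : ‖((SS p r : ℚ) : ℚ_[p])‖ ≤ ((p : ℝ)⁻¹) ^ 4 := by
    rw [h1]
    push_cast
    rw [norm_mul, norm_pow, Padic.norm_p]
    calc ((p : ℝ)⁻¹) ^ 4 * ‖((t : ℤ_[p]) : ℚ_[p])‖ ≤ ((p : ℝ)⁻¹) ^ 4 * 1 := by
          apply mul_le_mul_of_nonneg_left _ (by positivity)
          exact PadicInt.norm_le_one t
      _ = _ := mul_one _
  rw [h2'] at h3'
  have h5 : ((SC.dl p ^ 4 : ℚ) : ℝ) = ((p : ℝ)⁻¹) ^ 4 := by
    unfold SC.dl
    push_cast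
    ring
  rw [← h5] at h3'
  have h6 : padicNorm p (SS p r - 0) ≤ SC.dl p ^ 4 := by
    rw [sub_zero]
    exact_mod_cast h3'
  have h7 := congr_of_norm h6
  rcases h7 with h7 | h7
  · left
    linarith
  · right
    rw [sub_zero] at h7
    exact_mod_cast h7

end Pool.Agent.X234.EE
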