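import Pool.Agent.X234.EE.Blk

/-!
# The two key congruences
-/

set_option autoImplicit false

namespace Pool.Agent.X234.EE

open Finset Pool.Agent.X234.WG

variable {p : ℕ} [hp : Fact p.Prime]

lemma ff_one (h3 : 3 < p) (h : ℤ_[p]) (h2 : 2 * h = 1) : ff p h 1 = 0 := by
  unfold ff
  have h0 : ∑ k ∈ range p, ck p h k * PK 1 k = ∑ k ∈ range 2, ck p h k * PK 1 k := by
    symm
    apply sum_subset
    · intro k hk
      have := mem_range.mp hk
      exact mem_range.mpr (by omega)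
    · intro k _ hk2
      have h1 : 1 < k := by
        by_contra hc
        exact hk2 (mem_range.mpr (by omega))
      have : PK (1 : ℤ_[p]) k = 0 := by
        unfold PK
        apply prod_eq_zero (mem_range.mpr h1)
        simp
      rw [this, mul_zero]
  rw [h0]
  have hw := SD.w_mul p (i := 0) (by omega)
  simp only [Nat.cast_zero, zero_add, one_mul] at hw
  simp [sum_range_succ, ck, HK, PK, I, hw]
  linear_combination -h2

lemma ff_odd (h3 : 3 < p) (h : ℤ_[p]) (h2 : 2 * h = 1) (q : ℕ) (hq : 2 * q + 1 < p) :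
    ff p h ((2 * q + 1 : ℕ) : ℤ_[p]) = 0 := by
  induction q with
  | zero => simpa using ff_one h3 h h2
  | succ q ih =>
    have h1 := ih (by omega)
    have h4 := ff_nat p h h2 (2 * q + 1) (by omega)
    rw [h1, mul_zero] at h4
    have h5 : (((2 * q + 1 : ℕ) : ℤ_[p]) + 2) ^ 2 ≠ 0 := by
      apply pow_ne_zero
      have : ((2 * q + 3 : ℕ) : ℤ_[p]) ≠ 0 := by
        rw [Nat.cast_ne_zero]; omega
      push_cast at this ⊢
      intro h0
      apply this
      linear_combination h0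
    have h6 := (mul_eq_zero.mp h4).resolve_left h5
    rw [show ((2 * (q + 1) + 1 : ℕ) : ℤ_[p]) = ((2 * q + 1 : ℕ) : ℤ_[p]) + 2 by push_cast; ring]
    exact h6

lemma A2_ff (h : ℤ_[p]) (n : ℕ) : A2 (p := p) (fun t => ff p h ((n : ℤ_[p]) + p * t)) := by
  unfold ff
  apply A2.sum
  intro k _
  apply (A2.const (ck p h k)).mul
  unfold PK
  apply A2.prod
  intro i _
  have e1 := (A2.lin (p := p) ((i : ℤ_[p]) - (n : ℤ_[p])) (-1))
  have e2 := (A2.lin (p := p) ((n : ℤ_[p]) + 1 + i) 1)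
  have e3 := e1.mul e2
  convert e3 using 2 with t
  ring

lemma ff_odd_all (h3 : 3 < p) (h : ℤ_[p]) (h2 : 2 * h = 1) (q : ℕ) (hq : 2 * q + 1 < p)
    (t : ℤ_[p]) : (p : ℤ_[p]) ^ 2 ∣ ff p h (((2 * q + 1 : ℕ) : ℤ_[p]) + p * t) := by
  obtain ⟨c0, c1, hA⟩ := A2_ff (p := p) h (2 * q + 1)
  obtain ⟨m, hm⟩ := hp.out.odd_of_ne_two (by omega)
  have hpm : (p : ℤ_[p]) = 2 * m + 1 := by exact_mod_cast congrArg (Nat.cast (R := ℤ_[p])) hm
  have h4 := hA 0
  have h5 := hA (-1)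
  simp only at h4 h5
  rw [mul_zero, mul_zero, add_zero, add_zero, ff_odd h3 h h2 q hq] at h4
  have e : ((2 * q + 1 : ℕ) : ℤ_[p]) + p * (-1) = -1 - ((2 * (m - q - 1) + 1 : ℕ) : ℤ_[p]) := by
    rw [hpm]
    obtain ⟨d, hd⟩ : ∃ d, m = q + 1 + d := ⟨m - q - 1, by omega⟩
    rw [hd, show q + 1 + d - q - 1 = d by omega]
    push_cast
    ring
  rw [e, ff_symm, ff_odd h3 h h2 (m - q - 1) (by omega)] at h5
  obtain ⟨a, ha⟩ := h4
  obtain ⟨b, hb⟩ := h5
  obtain ⟨c, hc⟩ := hA t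
  simp only at hc
  exact ⟨c - a * (1 + t) + b * t, by linear_combination hc - (1 + t) * ha + t * hb⟩

lemma PK_half (h : ℤ_[p]) (h2 : 2 * h = 1) (k : ℕ) : PK (-h) k = HK h k ^ 2 := by
  unfold PK HK
  rw [← prod_pow]
  refine prod_congr rfl fun i _ => ?_
  linear_combination (-(i : ℤ_[p]) - h) * h2

lemma rho_zero (h : ℤ_[p]) {k : ℕ} : rho h 0 k = HK h k * I p k := by
  unfold rho HK I
  rw [← prod_mul_distrib]
  refine prod_congr rfl fun i _ => ?_
  rw [mul_zero, add_zero, add_zero]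
  rfl

/-- the sum over a full block vanishes modulo `p ^ 2` -/
lemma full_zero (h3 : 3 < p) {h : ℤ_[p]} (h2 : 2 * h = 1) {m : ℕ} (hm : p = 2 * m + 1)
    (hodd : Odd m) : (p : ℤ_[p]) ^ 2 ∣ ∑ k ∈ range p, rho h 0 k ^ 3 := by
  obtain ⟨q, hq⟩ := hodd
  have hpm : (p : ℤ_[p]) = 2 * m + 1 := by exact_mod_cast congrArg (Nat.cast (R := ℤ_[p])) hm
  have h1 := ff_odd_all h3 h h2 q (by omega) (-h)
  rw [← hq] at h1
  have e : (m : ℤ_[p]) + p * (-h) = -h := by
    linear_combination (-h) * hpm - (m : ℤ_[p]) * h2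
  rw [e] at h1
  have e2 : ff p h (-h) = ∑ k ∈ range p, rho h 0 k ^ 3 := by
    unfold ff
    refine sum_congr rfl fun k _ => ?_
    rw [PK_half h h2, rho_zero]
    unfold ck
    ring
  rwa [e2] at h1

lemma cube_dvd {h : ℤ_[p]} (h2 : 2 * h = 1) {m : ℕ} (hm : p = 2 * m + 1) (t : ℤ_[p]) {k : ℕ}
    (hk : m < k) : (p : ℤ_[p]) ^ 3 ∣ rho h t k ^ 3 := by
  obtain ⟨x, rfl⟩ : ∃ x, k = m + 1 + x := ⟨k - m - 1, by omega⟩
  rw [rho_ee h2 hm]
  exact ⟨((h + t) * ee h t m x) ^ 3, by ring⟩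

lemma tail_dvd {h : ℤ_[p]} (h2 : 2 * h = 1) {m : ℕ} (hm : p = 2 * m + 1) (t : ℤ_[p]) :
    (p : ℤ_[p]) ^ 3 ∣ ∑ k ∈ range p, rho h t k ^ 3 - ∑ k ∈ range (m + 1), rho h t k ^ 3 := by
  have e : p = (m + 1) + m := by omega
  have h1 : ∑ k ∈ range p, rho h t k ^ 3 = ∑ k ∈ range (m + 1), rho h t k ^ 3 +
      ∑ x ∈ range m, rho h t (m + 1 + x) ^ 3 := by
    have e' : range p = range ((m + 1) + m) := by rw [← e]
    rw [e', sum_range_add]
  rw [h1, add_sub_cancel_left]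
  apply dvd_sum
  intro x _
  exact cube_dvd h2 hm t (by omega)

/-- the half block sums vanish modulo `p ^ 2` -/
lemma half_zero (h3 : 3 < p) {h : ℤ_[p]} (h2 : 2 * h = 1) {m : ℕ} (hm : p = 2 * m + 1)
    (hodd : Odd m) (t : ℤ_[p]) : (p : ℤ_[p]) ^ 2 ∣ ∑ k ∈ range (m + 1), rho h t k ^ 3 := by
  have hA : A2 (p := p) (fun t => ∑ k ∈ range (m + 1), rho h t k ^ 3) := by
    apply A2.sum
    intro k hk
    have e1 := A2_rho h (i := k) (by omega)
    have e2 := (e1.mul e1).mul e1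
    convert e2 using 2 with t
    ring
  obtain ⟨c0, c1, hA⟩ := hA
  -- value at zero
  have h0 : (p : ℤ_[p]) ^ 2 ∣ ∑ k ∈ range (m + 1), rho h 0 k ^ 3 := by
    obtain ⟨a, ha⟩ := full_zero h3 h2 hm hodd
    obtain ⟨b, hb⟩ := tail_dvd h2 hm (0 : ℤ_[p])
    exact ⟨a - p * b, by linear_combination ha - hb⟩
  -- reflection
  have hr : ∑ k ∈ range (m + 1), rho h 0 k ^ 3 =
      rho h 0 m ^ 3 * ∑ k ∈ range (m + 1), rho h (0 - h) k ^ 3 := by
    rw [← sum_range_reflect, mul_sum]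
    refine sum_congr rfl fun k hk => ?_
    have hk' := mem_range.mp hk
    rw [show m + 1 - 1 - k = m - k by omega, rho_refl h2 hm 0 k (by omega)]
    rw [show (-0 - h : ℤ_[p]) = 0 - h by ring]
    ring
  obtain ⟨c, hc⟩ := rho_bin h2 hm (i := m) (by omega)
  rw [Nat.choose_self, hodd.neg_one_pow] at hc
  push_cast at hc
  obtain ⟨a, ha⟩ := h0
  have k0 := hA 0
  have k1 := hA (0 - h)
  simp only at k0 k1
  obtain ⟨x0, hx0⟩ := k0
  obtain ⟨x1, hx1⟩ := k1
  obtain ⟨y, hy⟩ := hA t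
  simp only at hy
  rw [ha] at hx0 hr
  generalize ∑ k ∈ range (m + 1), rho h (0 - h) k ^ 3 = B at *
  generalize rho h 0 m = r at *
  -- c0 = p^2 * c0'
  have hc0 : c0 = p ^ 2 * (a - x0) := by linear_combination -hx0
  -- B = p * B'
  have hB : B = p * (p * (a - x0) - c1 * h + p * x1) := by
    rw [hc0] at hx1
    linear_combination hx1
  -- B = p^2 * B''
  have hr1 : r = -1 + p * c := by linear_combination hc
  have hB2 : (p : ℤ_[p]) * (c1 * h) = p * (p * (a + (a - x0) + x1 -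
      (3 * c - 3 * p * c ^ 2 + p ^ 2 * c ^ 3) * (p * (a - x0) - c1 * h + p * x1))) := by
    rw [hB, hr1] at hr
    linear_combination -hr
  have hp0 : (p : ℤ_[p]) ≠ 0 := SD.p_ne p
  have hB3 := mul_left_cancel₀ hp0 hB2
  generalize a + (a - x0) + x1 -
      (3 * c - 3 * p * c ^ 2 + p ^ 2 * c ^ 3) * (p * (a - x0) - c1 * h + p * x1) = w at hB3
  have hc1 : c1 = p * (2 * w) := by linear_combination 2 * hB3 - c1 * h2
  refine ⟨(a - x0) + 2 * w * t + y, ?_⟩
  rw [hc0, hc1] at hy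
  linear_combination hy

lemma unit_nat {n : ℕ} (h : ¬ p ∣ n) : IsUnit (n : ℤ_[p]) :=
  isUnit_of_not_dvd (fun hd => h ((dvd_nat_iff n).mp hd))

lemma choose_unit {m l : ℕ} (hm : p = 2 * m + 1) (hl : l ≤ m) : ¬ p ∣ m.choose l := by
  intro hd
  have h1 : p ∣ m.factorial := by
    rw [← Nat.choose_mul_factorial_mul_factorial hl, mul_assoc]
    exact hd.mul_right _
  have h4 := (hp.out.dvd_factorial).mp h1
  omega

lemma lc_unit {m l : ℕ} (hm : p = 2 * m + 1) (h1 : 1 ≤ l) (hl : l ≤ m) :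
    IsUnit ((l : ℤ_[p]) * (m.choose l : ℤ_[p])) := by
  have h2 : ¬ p ∣ l * m.choose l := by
    intro hd
    rcases (hp.out.dvd_mul).mp hd with h | h
    · have := Nat.le_of_dvd (by omega) h
      omega
    · exact choose_unit hm hl h
  have := unit_nat (p := p) h2
  push_cast at this
  exact this

noncomputable def dl (p : ℕ) [Fact p.Prime] (m l : ℕ) : ℤ_[p] :=
  (-1) ^ l * iv p ((l : ℤ_[p]) * (m.choose l : ℤ_[p]))

lemma dl_mul {m l : ℕ} (hm : p = 2 * m + 1) (h1 : 1 ≤ l) (hl : l ≤ m) :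
    dl p m l * ((l : ℤ_[p]) * (m.choose l : ℤ_[p])) = (-1) ^ l := by
  unfold dl
  linear_combination (-1) ^ l * mul_iv (lc_unit hm h1 hl)

lemma dl_step {m l : ℕ} (hm : p = 2 * m + 1) (h1 : 1 ≤ l) (hl : l + 1 ≤ m) :
    dl p m (l + 1) * ((m : ℤ_[p]) - l) = -((l : ℤ_[p]) * dl p m l) := by
  have e1 := dl_mul hm (l := l + 1) (by omega) hl
  have e2 := dl_mul hm h1 (by omega)
  have h3 : (m.choose (l + 1) : ℤ_[p]) * ((l : ℤ_[p]) + 1) =
      (m.choose l : ℤ_[p]) * ((m : ℤ_[p]) - l) := by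
    have := Nat.choose_succ_right_eq m l
    have h2 : (((m.choose (l + 1)) * (l + 1) : ℕ) : ℤ_[p]) =
        ((m.choose l * (m - l) : ℕ) : ℤ_[p]) := by
      rw [this]
    rw [Nat.cast_mul, Nat.cast_mul, Nat.cast_sub (by omega)] at h2
    push_cast at h2
    exact h2
  have hc : ((m.choose l : ℕ) : ℤ_[p]) ≠ 0 := by
    rw [Nat.cast_ne_zero]
    exact (Nat.choose_pos (by omega)).ne'
  apply mul_right_cancel₀ hc
  rw [pow_succ] at e1
  push_cast at e1
  linear_combination e1 + e2 - dl p m (l + 1) * h3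

lemma ee_dl {h : ℤ_[p]} (h2 : 2 * h = 1) {m : ℕ} (hm : p = 2 * m + 1) (x : ℕ) (hx : x < m) :
    (p : ℤ_[p]) ∣ ee h 0 m x - (ee h 0 m 0 * m * (-1) ^ m) * dl p m (m - x) := by
  have hpm : (p : ℤ_[p]) = 2 * m + 1 := by exact_mod_cast congrArg (Nat.cast (R := ℤ_[p])) hm
  induction x with
  | zero =>
    have h1 := dl_mul hm (l := m) (by omega) le_rfl
    rw [Nat.choose_self] at h1
    push_cast at h1
    have h4 : ((-1 : ℤ_[p]) ^ m) * (-1) ^ m = 1 := by rw [← mul_pow]; norm_num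
    rw [Nat.sub_zero]
    exact ⟨0, by linear_combination (-ee h 0 m 0 * (-1) ^ m) * h1 + (-ee h 0 m 0) * h4⟩
  | succ x ih =>
    obtain ⟨c, hc⟩ := ih (by omega)
    obtain ⟨l, hl⟩ : ∃ l, m = l + 1 + x := ⟨m - 1 - x, by omega⟩
    have hs := dl_step hm (l := l) (by omega) (by omega)
    rw [show m - (x + 1) = l by omega]
    rw [show m - x = l + 1 by omega] at hc
    have e1 : ee h 0 m (x + 1) = ee h 0 m x * ((h + ((m + 1 + x : ℕ) : ℤ_[p]) + p * 0) *
      iv p (((m + 1 + x : ℕ) : ℤ_[p]) + 1 + p * 0)) := by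
      unfold ee
      rw [prod_range_succ]
      ring
    have u1 := mul_iv (unit_one (p := p) (j := m + 1 + x) (by omega) 0)
    have hml : (m : ℤ_[p]) = l + 1 + x := by exact_mod_cast congrArg (Nat.cast (R := ℤ_[p])) hl
    have hp3 : h + (m : ℤ_[p]) = p * h := by
      have := rho_pos h2 hm (0 : ℤ_[p])
      linear_combination this
    apply SD.dvd_of_dvd_nat_mul p (m := m + 1 + x + 1) (by omega) (by omega)
    rw [e1]
    push_cast at u1 ⊢
    rw [mul_zero, add_zero] at u1 ⊢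
    rw [add_zero]
    generalize ee h 0 m x = E at *
    generalize ee h 0 m 0 * (m : ℤ_[p]) * (-1) ^ m = L at *
    generalize dl p m (l + 1) = D1 at *
    generalize dl p m l = D0 at *
    generalize iv p ((m : ℤ_[p]) + 1 + x + 1) = V at *
    refine ⟨c * (1 + x) + E * h - L * D0, ?_⟩
    linear_combination (E * (h + ((m : ℤ_[p]) + 1 + x))) * u1 + (1 + (x : ℤ_[p])) * hc +
      E * hp3 + L * hs + (L * D0) * hpm + (L * D0 - L * D1) * hml

end Pool.Agent.X234.EE
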