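import Pool.Agent.X234.EE.Key

/-!
# The self-convolution modulo `p ^ 4`
-/

set_option autoImplicit false

namespace Pool.Agent.X234.EE

open Finset Pool.Agent.X234.WG

variable {p : ℕ} [hp : Fact p.Prime]

/-- the double sum over `ℤ_[p]` -/
noncomputable def Fp (p : ℕ) [Fact p.Prime] (m : ℕ) : ℤ_[p] :=
  ∑ l ∈ range m, dl p m (l + 1) ^ 3 * ∑ i ∈ range (l + 1), ((-1) ^ i * (m.choose i : ℤ_[p])) ^ 3

lemma cast_Fp {m : ℕ} (hm : p = 2 * m + 1) : ((Fp p m : ℤ_[p]) : ℚ_[p]) = ((FF m : ℚ) : ℚ_[p]) := by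
  unfold Fp FF
  rw [PadicInt.coe_sum, Rat.cast_sum]
  refine sum_congr rfl fun l hl => ?_
  have hl' := mem_range.mp hl
  have h1 := congrArg (fun x : ℤ_[p] => (x : ℚ_[p])) (dl_mul hm (l := l + 1) (by omega) (by omega))
  push_cast at h1
  have hne : ((l : ℚ_[p]) + 1) * (m.choose (l + 1) : ℚ_[p]) ≠ 0 := by
    have : (((l + 1) * m.choose (l + 1) : ℕ) : ℚ_[p]) ≠ 0 := by
      rw [Nat.cast_ne_zero]
      exact Nat.mul_ne_zero (by omega) (Nat.choose_pos (by omega)).ne'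
    push_cast at this
    exact this
  have h2 : ((dl p m (l + 1) : ℤ_[p]) : ℚ_[p]) =
      (-1) ^ (l + 1) / (((l : ℚ_[p]) + 1) * (m.choose (l + 1) : ℚ_[p])) := by
    rw [eq_div_iff hne]
    exact h1
  have h3 : ∀ n : ℕ, ((-1 : ℚ_[p]) ^ n) ^ 3 = (-1) ^ n := by
    intro n
    rw [← pow_mul, mul_comm, pow_mul]
    norm_num
  have hs : ((∑ i ∈ range (l + 1), ((-1) ^ i * (m.choose i : ℤ_[p])) ^ 3 : ℤ_[p]) : ℚ_[p]) =
      ((CC m (l + 1) : ℚ) : ℚ_[p]) := by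
    unfold CC tt
    rw [PadicInt.coe_sum, Rat.cast_sum]
    refine sum_congr rfl fun i _ => ?_
    push_cast
    rw [mul_pow, h3]
  rw [PadicInt.coe_mul, PadicInt.coe_pow, hs, h2, Rat.cast_mul, div_pow, h3]
  unfold dd
  push_cast
  rfl

lemma Fp_dvd {m k : ℕ} (hm : p = 2 * m + 1) (hk : m = 2 * k + 1) (hk1 : 1 ≤ k) :
    (p : ℤ_[p]) ∣ Fp p m := by
  have h1 := congrArg (fun x : ℚ => (x : ℚ_[p])) (FF_closed k)
  push_cast at h1
  rw [← hk, ← cast_Fp hm] at h1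
  have h2 : Fp p m * ((∏ i ∈ range k, ((2 * i + 3) ^ 2 * ((6 * i + 8) * (6 * i + 10))) : ℕ) : ℤ_[p]) =
      -((∏ i ∈ range k, ((6 * i + 5) * (6 * i + 7) * (2 * i + 2) ^ 2) : ℕ) : ℤ_[p]) := by
    have hinj : Function.Injective (fun x : ℤ_[p] => (x : ℚ_[p])) := Subtype.coe_injective
    apply hinj
    simp only [PadicInt.coe_mul, PadicInt.coe_neg, PadicInt.coe_natCast]
    push_cast
    exact h1
  have h3 : ¬ (p : ℤ_[p]) ∣
      ((∏ i ∈ range k, ((2 * i + 3) ^ 2 * ((6 * i + 8) * (6 * i + 10))) : ℕ) : ℤ_[p]) := by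
    rw [dvd_nat_iff]
    intro hd
    obtain ⟨i, hi, hd⟩ := (Prime.dvd_finsetProd_iff hp.out.prime _).mp hd
    have hi' := mem_range.mp hi
    have small : ∀ n : ℕ, 0 < n → n < p → ¬ p ∣ n := fun n h0 h1 hd => by
      have := Nat.le_of_dvd h0 hd
      omega
    rcases (hp.out.dvd_mul).mp hd with h | h
    · exact small (2 * i + 3) (by omega) (by omega) (hp.out.dvd_of_dvd_pow h)
    · rcases (hp.out.dvd_mul).mp h with h | h
      · rw [show 6 * i + 8 = 2 * (3 * i + 4) by ring] at h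
        rcases (hp.out.dvd_mul).mp h with h | h
        · exact small 2 (by omega) (by omega) h
        · exact small (3 * i + 4) (by omega) (by omega) h
      · rw [show 6 * i + 10 = 2 * (3 * i + 5) by ring] at h
        rcases (hp.out.dvd_mul).mp h with h | h
        · exact small 2 (by omega) (by omega) h
        · exact small (3 * i + 5) (by omega) (by omega) h
  have h4 : p ∣ ∏ i ∈ range k, ((6 * i + 5) * (6 * i + 7) * (2 * i + 2) ^ 2) := by
    have h3p : ¬ 3 ∣ p := by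
      intro h3
      have := (Nat.prime_dvd_prime_iff_eq Nat.prime_three hp.out).mp h3
      omega
    have h6 : p % 6 = 5 ∨ p % 6 = 1 := by omega
    rcases h6 with h6 | h6
    · have hi : (p - 5) / 6 ∈ range k := mem_range.mpr (by omega)
      refine Dvd.dvd.trans ?_ (dvd_prod_of_mem _ hi)
      have : 6 * ((p - 5) / 6) + 5 = p := by omega
      rw [this]
      exact (dvd_mul_right p _).mul_right _
    · have hi : (p - 7) / 6 ∈ range k := mem_range.mpr (by omega)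
      refine Dvd.dvd.trans ?_ (dvd_prod_of_mem _ hi)
      have : 6 * ((p - 7) / 6) + 7 = p := by omega
      rw [this]
      exact (Dvd.intro_left _ rfl : p ∣ (6 * ((p - 7) / 6) + 5) * p).mul_right _
  have h5 : (p : ℤ_[p]) ∣ Fp p m *
      ((∏ i ∈ range k, ((2 * i + 3) ^ 2 * ((6 * i + 8) * (6 * i + 10))) : ℕ) : ℤ_[p]) := by
    rw [h2, dvd_neg, dvd_nat_iff]
    exact h4
  exact ((PadicInt.prime_p (p := p)).dvd_or_dvd h5).resolve_right h3

noncomputable def TTT (h s t : ℤ_[p]) (m : ℕ) : ℤ_[p] :=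
  ∑ x ∈ range m, ee h s m x ^ 3 * ∑ i ∈ range (m - x), rho h t i ^ 3

lemma sum_congr_mod (f g : ℕ → ℤ_[p]) (x : ℤ_[p]) (n : ℕ) (h : ∀ i < n, x ∣ f i - g i) :
    x ∣ ∑ i ∈ range n, f i - ∑ i ∈ range n, g i := by
  rw [← sum_sub_distrib]
  exact dvd_sum fun i hi => h i (mem_range.mp hi)

lemma cube_congr {a b x : ℤ_[p]} (h : x ∣ a - b) : x ∣ a ^ 3 - b ^ 3 := by
  obtain ⟨c, hc⟩ := h
  exact ⟨c * (a ^ 2 + a * b + b ^ 2), by linear_combination (a ^ 2 + a * b + b ^ 2) * hc⟩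

lemma mul_congr {a b c d x : ℤ_[p]} (h1 : x ∣ a - b) (h2 : x ∣ c - d) : x ∣ a * c - b * d := by
  obtain ⟨u, hu⟩ := h1
  obtain ⟨v, hv⟩ := h2
  exact ⟨u * c + b * v, by linear_combination c * hu + b * hv⟩

lemma TTT_zero {h : ℤ_[p]} (h2 : 2 * h = 1) {m k : ℕ} (hm : p = 2 * m + 1)
    (hk : m = 2 * k + 1) (hk1 : 1 ≤ k) (s t : ℤ_[p]) : (p : ℤ_[p]) ∣ TTT h s t m := by
  set L : ℤ_[p] := ee h 0 m 0 * m * (-1) ^ m with hL
  have h1 : (p : ℤ_[p]) ∣ TTT h s t m - ∑ x ∈ range m, (L * dl p m (m - x)) ^ 3 *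
      ∑ i ∈ range (m - x), ((-1) ^ i * (m.choose i : ℤ_[p])) ^ 3 := by
    unfold TTT
    apply sum_congr_mod
    intro x hx
    apply mul_congr
    · apply cube_congr
      have a1 := ee_congr h s (m := m) (x := x) (by omega)
      have a2 := ee_dl h2 hm x hx
      have := dvd_add a1 a2
      rwa [sub_add_sub_cancel] at this
    · apply sum_congr_mod
      intro i hi
      apply cube_congr
      have a1 := rho_congr h t (i := i) (by omega)
      have a2 := rho_bin h2 hm (i := i) (by omega)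
      have := dvd_add a1 a2
      rwa [sub_add_sub_cancel] at this
  have h3 : ∑ x ∈ range m, (L * dl p m (m - x)) ^ 3 *
      ∑ i ∈ range (m - x), ((-1) ^ i * (m.choose i : ℤ_[p])) ^ 3 = L ^ 3 * Fp p m := by
    unfold Fp
    rw [mul_sum, ← sum_range_reflect (fun l => L ^ 3 * (dl p m (l + 1) ^ 3 *
      ∑ i ∈ range (l + 1), ((-1) ^ i * (m.choose i : ℤ_[p])) ^ 3))]
    refine sum_congr rfl fun x hx => ?_
    have hx' := mem_range.mp hx
    rw [show m - 1 - x + 1 = m - x by omega]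
    ring
  rw [h3] at h1
  have h4 := (Fp_dvd hm hk hk1).mul_left (L ^ 3)
  have := dvd_add h1 h4
  rwa [sub_add_cancel] at this

/-- `C(2k,k) / 4^k` -/
noncomputable def uu (h : ℤ_[p]) (k : ℕ) : ℤ_[p] := (k.centralBinom : ℤ_[p]) * h ^ (2 * k)

lemma uu_rec {h : ℤ_[p]} (h2 : 2 * h = 1) (k : ℕ) :
    ((k : ℤ_[p]) + 1) * uu h (k + 1) = (h + k) * uu h k := by
  unfold uu
  have h3 : (((k + 1) * (k + 1).centralBinom : ℕ) : ℤ_[p]) =
      ((2 * (2 * k + 1) * k.centralBinom : ℕ) : ℤ_[p]) := by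
    rw [Nat.succ_mul_centralBinom_succ]
  push_cast at h3
  rw [show 2 * (k + 1) = 2 * k + 2 by ring, pow_add]
  linear_combination (h ^ (2 * k) * h ^ 2) * h3 +
    ((k.centralBinom : ℤ_[p]) * h ^ (2 * k) * ((2 * k + 1) * h + k)) * h2

lemma uu_block {h : ℤ_[p]} (h2 : 2 * h = 1) (a i : ℕ) (hi : i < p) :
    uu h (p * a + i) = uu h (p * a) * rho h (a : ℤ_[p]) i := by
  induction i with
  | zero => simp [rho]
  | succ i ih =>
    have h1 := uu_rec h2 (p * a + i)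
    rw [ih (by omega)] at h1
    have u1 := mul_iv (unit_one (p := p) (j := i) (by omega) (a : ℤ_[p]))
    rw [rho_succ, show p * a + (i + 1) = p * a + i + 1 by ring]
    push_cast at h1
    generalize uu h (p * a + i + 1) = X at *
    linear_combination (iv p ((i : ℤ_[p]) + 1 + p * a)) * h1 - X * u1

noncomputable def Pre (h : ℤ_[p]) (l : ℕ) : ℤ_[p] := ∑ i ∈ range l, uu h i ^ 3

lemma Pre_add {h : ℤ_[p]} (h2 : 2 * h = 1) (a n : ℕ) (hn : n ≤ p) :
    Pre h (p * a + n) = Pre h (p * a) + uu h (p * a) ^ 3 * ∑ i ∈ range n, rho h (a : ℤ_[p]) i ^ 3 := by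
  unfold Pre
  rw [sum_range_add, mul_sum]
  congr 1
  refine sum_congr rfl fun i hi => ?_
  have := mem_range.mp hi
  rw [uu_block h2 a i (by omega)]
  ring

lemma Pre_dvd (h3 : 3 < p) {h : ℤ_[p]} (h2 : 2 * h = 1) {m : ℕ} (hm : p = 2 * m + 1)
    (hodd : Odd m) (a : ℕ) : (p : ℤ_[p]) ^ 2 ∣ Pre h (p * a) := by
  induction a with
  | zero => simp [Pre]
  | succ a ih =>
    rw [mul_add, mul_one, Pre_add h2 a p le_rfl]
    apply dvd_add ih
    apply Dvd.dvd.mul_left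
    obtain ⟨x, hx⟩ := half_zero h3 h2 hm hodd (a : ℤ_[p])
    obtain ⟨y, hy⟩ := tail_dvd h2 hm (a : ℤ_[p])
    exact ⟨x + p * y, by linear_combination hx + hy⟩

lemma blocks (f : ℕ → ℤ_[p]) (P N : ℕ) :
    ∑ j ∈ range (P * N), f j = ∑ a ∈ range N, ∑ i ∈ range P, f (P * a + i) := by
  induction N with
  | zero => simp
  | succ N ih => rw [mul_add, mul_one, sum_range_add, ih, sum_range_succ]

/-- one block of the convolution -/
lemma one_block (h3 : 3 < p) {h : ℤ_[p]} (h2 : 2 * h = 1) {m k : ℕ} (hm : p = 2 * m + 1)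
    (hk : m = 2 * k + 1) (hk1 : 1 ≤ k) (a b : ℕ) :
    (p : ℤ_[p]) ^ 4 ∣ ∑ i ∈ range p, uu h (p * a + i) ^ 3 * Pre h (p * (b + 1) - i) := by
  have hodd : Odd m := ⟨k, hk⟩
  obtain ⟨x1, hx1⟩ := half_zero h3 h2 hm hodd (a : ℤ_[p])
  obtain ⟨x2, hx2⟩ := half_zero h3 h2 hm hodd (b : ℤ_[p])
  obtain ⟨x3, hx3⟩ := Pre_dvd h3 h2 hm hodd b
  obtain ⟨x4, hx4⟩ := TTT_zero h2 hm hk hk1 (a : ℤ_[p]) (b : ℤ_[p])
  obtain ⟨x5, hx5⟩ := TTT_zero h2 hm hk hk1 (b : ℤ_[p]) (a : ℤ_[p])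
  have e' : range p = range ((m + 1) + m) := by rw [show (m + 1) + m = p by omega]
  rw [e', sum_range_add]
  -- lower half
  have hlow : ∑ i ∈ range (m + 1), uu h (p * a + i) ^ 3 * Pre h (p * (b + 1) - i) =
      uu h (p * a) ^ 3 * ((∑ i ∈ range (m + 1), rho h (a : ℤ_[p]) i ^ 3) *
        (Pre h (p * b) + uu h (p * b) ^ 3 * ∑ i ∈ range (m + 1), rho h (b : ℤ_[p]) i ^ 3) +
        uu h (p * b) ^ 3 * (p ^ 3 * (h + b) ^ 3 * TTT h (b : ℤ_[p]) (a : ℤ_[p]) m)) := by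
    have h4 : ∀ i ∈ range (m + 1), uu h (p * a + i) ^ 3 * Pre h (p * (b + 1) - i) =
        uu h (p * a) ^ 3 * (rho h (a : ℤ_[p]) i ^ 3 *
        (Pre h (p * b) + uu h (p * b) ^ 3 * ∑ i ∈ range (m + 1), rho h (b : ℤ_[p]) i ^ 3) +
        uu h (p * b) ^ 3 * (p ^ 3 * (h + b) ^ 3 * (rho h (a : ℤ_[p]) i ^ 3 *
          ∑ x ∈ range (m - i), ee h (b : ℤ_[p]) m x ^ 3))) := by
      intro i hi
      have hi' := mem_range.mp hi
      have e1 : p * (b + 1) - i = p * b + ((m + 1) + (m - i)) := by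
        rw [mul_add, mul_one]
        omega
      rw [e1, Pre_add h2 b _ (by omega), uu_block h2 a i (by omega), sum_range_add]
      have e2 : ∑ x ∈ range (m - i), rho h (b : ℤ_[p]) (m + 1 + x) ^ 3 =
          p ^ 3 * (h + b) ^ 3 * ∑ x ∈ range (m - i), ee h (b : ℤ_[p]) m x ^ 3 := by
        rw [mul_sum]
        refine sum_congr rfl fun x _ => ?_
        rw [rho_ee h2 hm]
        ring
      rw [e2]
      ring
    rw [sum_congr rfl h4, ← mul_sum, sum_add_distrib, ← sum_mul, ← mul_sum, ← mul_sum]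
    congr 4
    -- swap
    unfold TTT
    have h5 : ∑ i ∈ range (m + 1), rho h (a : ℤ_[p]) i ^ 3 *
        ∑ x ∈ range (m - i), ee h (b : ℤ_[p]) m x ^ 3 =
        ∑ i ∈ range m, ∑ x ∈ range (m - i), ee h (b : ℤ_[p]) m x ^ 3 * rho h (a : ℤ_[p]) i ^ 3 := by
      rw [sum_range_succ, Nat.sub_self, range_zero, sum_empty, mul_zero, add_zero]
      refine sum_congr rfl fun i _ => ?_
      rw [mul_sum]
      exact sum_congr rfl fun x _ => by ring
    rw [h5]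
    have h6 : ∑ x ∈ range m, ee h (b : ℤ_[p]) m x ^ 3 * ∑ i ∈ range (m - x), rho h (a : ℤ_[p]) i ^ 3 =
        ∑ x ∈ range m, ∑ i ∈ range (m - x), ee h (b : ℤ_[p]) m x ^ 3 * rho h (a : ℤ_[p]) i ^ 3 :=
      sum_congr rfl fun x _ => by rw [mul_sum]
    rw [h6, ← sum_range_diag_flip m (fun i x => ee h (b : ℤ_[p]) m x ^ 3 * rho h (a : ℤ_[p]) i ^ 3),
      ← sum_range_diag_flip m (fun x i => ee h (b : ℤ_[p]) m x ^ 3 * rho h (a : ℤ_[p]) i ^ 3)]
    refine sum_congr rfl fun n _ => ?_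
    rw [← sum_range_reflect]
    refine sum_congr rfl fun j hj => ?_
    have hj' := mem_range.mp hj
    rw [show n + 1 - 1 - j = n - j by omega, show n - (n - j) = j by omega]
  -- upper half
  have hup : ∑ x ∈ range m, uu h (p * a + (m + 1 + x)) ^ 3 * Pre h (p * (b + 1) - (m + 1 + x)) =
      uu h (p * a) ^ 3 * (p ^ 3 * (h + a) ^ 3 * ((∑ x ∈ range m, ee h (a : ℤ_[p]) m x ^ 3) *
        Pre h (p * b) + uu h (p * b) ^ 3 * TTT h (a : ℤ_[p]) (b : ℤ_[p]) m)) := by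
    unfold TTT
    rw [sum_mul, mul_sum, ← sum_add_distrib, mul_sum, mul_sum]
    refine sum_congr rfl fun x hx => ?_
    have hx' := mem_range.mp hx
    have e1 : p * (b + 1) - (m + 1 + x) = p * b + (m - x) := by
      rw [mul_add, mul_one]
      omega
    rw [e1, Pre_add h2 b _ (by omega), uu_block h2 a (m + 1 + x) (by omega), rho_ee h2 hm]
    ring
  rw [hlow, hup, hx1, hx2, hx3, hx4, hx5]
  exact ⟨uu h (p * a) ^ 3 * (x1 * (x3 + uu h (p * b) ^ 3 * x2) + uu h (p * b) ^ 3 *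
    ((h + b) ^ 3 * x5)) + uu h (p * a) ^ 3 * ((h + a) ^ 3 * ((∑ x ∈ range m,
    ee h (a : ℤ_[p]) m x ^ 3) * p * x3 + uu h (p * b) ^ 3 * x4)), by ring⟩

theorem conv_dvd (h3 : 3 < p) {h : ℤ_[p]} (h2 : 2 * h = 1) (h4 : p % 4 = 3) (N : ℕ) :
    (p : ℤ_[p]) ^ 4 ∣ ∑ j ∈ range (p * N), uu h j ^ 3 * Pre h (p * N - j) := by
  rw [blocks]
  apply dvd_sum
  intro a ha
  have ha' := mem_range.mp ha
  have h5 := one_block h3 h2 (m := (p - 1) / 2) (k := (p - 3) / 4) (by omega) (by omega)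
    (by omega) a (N - 1 - a)
  have h6 : ∀ i ∈ range p, uu h (p * a + i) ^ 3 * Pre h (p * (N - 1 - a + 1) - i) =
      uu h (p * a + i) ^ 3 * Pre h (p * N - (p * a + i)) := by
    intro i _
    congr 2
    obtain ⟨d, rfl⟩ : ∃ d, N = a + 1 + d := ⟨N - a - 1, by omega⟩
    rw [show a + 1 + d - 1 - a + 1 = d + 1 by omega, show p * (a + 1 + d) = p * a + p * (d + 1) by ring]
    omega
  rw [sum_congr rfl h6] at h5
  exact h5

end Pool.Agent.X234.EE
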